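import Mathlib
import Pool.Agent.Helper58.FX.Defs
import Pool.Agent.Helper58.FX.St.Stubs
import Pool.Agent.Helper91.TTT.Atoms

set_option autoImplicit false
open MeasureTheory Filter Topology
open scoped InnerProductSpace ComplexConjugate ENNReal

/-! FX-23: the chain argument. -/

namespace Helper74.FX
open Helper58.FX

variable {μ : Measure Tor}

lemma norm_ev_add [IsProbabilityMeasure μ] (a b : ℤ) :
    ‖ev μ (a + b) - ev μ a‖ = ‖ev μ b - ev μ 0‖ := by
  have h1 : ev μ (a + b) - ev μ a = MM μ a (ev μ b - ev μ 0) := by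
    rw [map_sub, St.MM_ev, St.MM_ev, add_zero]
  rw [h1, LinearIsometry.norm_map]

lemma norm_ev_neg [IsProbabilityMeasure μ] (b : ℤ) :
    ‖ev μ (-b) - ev μ 0‖ = ‖ev μ b - ev μ 0‖ := by
  have h1 := norm_ev_add (μ := μ) (-b) b
  rw [neg_add_cancel] at h1
  rw [← h1, norm_sub_rev]

lemma norm_ev_nat [IsProbabilityMeasure μ] (u : ℤ) (t : ℕ) :
    ‖ev μ (t * u) - ev μ 0‖ ≤ t * ‖ev μ u - ev μ 0‖ := by
  induction t with
  | zero => simp
  | succ t ih =>
    have h1 := norm_ev_add (μ := μ) (t * u) u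
    have h2 : ((t + 1 : ℕ) : ℤ) * u = t * u + u := by push_cast; ring
    rw [h2]
    calc ‖ev μ (t * u + u) - ev μ 0‖
        ≤ ‖ev μ (t * u + u) - ev μ (t * u)‖ + ‖ev μ (t * u) - ev μ 0‖ :=
          norm_sub_le_norm_sub_add_norm_sub _ _ _
      _ ≤ ‖ev μ u - ev μ 0‖ + t * ‖ev μ u - ev μ 0‖ := by rw [h1]; linarith
      _ = ((t + 1 : ℕ) : ℝ) * ‖ev μ u - ev μ 0‖ := by push_cast; ring

lemma norm_ev_int [IsProbabilityMeasure μ] (u t : ℤ) :
    ‖ev μ (t * u) - ev μ 0‖ ≤ |(t : ℝ)| * ‖ev μ u - ev μ 0‖ := by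
  rcases le_total 0 t with ht | ht
  · obtain ⟨t', rfl⟩ := Int.eq_ofNat_of_zero_le ht
    have := norm_ev_nat (μ := μ) u t'
    simpa using this
  · obtain ⟨t', ht'⟩ := Int.eq_ofNat_of_zero_le (show 0 ≤ -t by omega)
    have h1 : t = -(t' : ℤ) := by omega
    subst h1
    have := norm_ev_nat (μ := μ) u t'
    rw [neg_mul, norm_ev_neg]
    simpa using this

lemma ft_eq_inner [IsProbabilityMeasure μ] (a : ℤ) : ft μ a = ⟪ev μ 0, ev μ a⟫_ℂ := by
  rw [St.inner_ev, sub_zero]

lemma ft_diff [IsProbabilityMeasure μ] (a b : ℤ) :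
    ‖ft μ (a + b) - ft μ a‖ ≤ ‖ev μ b - ev μ 0‖ := by
  rw [ft_eq_inner, ft_eq_inner, ← inner_sub_right]
  refine (norm_inner_le_norm _ _).trans ?_
  rw [St.norm_ev, one_mul, norm_ev_add]

/-- the last step -/
lemma ft_zero [IsProbabilityMeasure μ] (hna : ∀ x : Tor, μ {x} = 0) {n v : ℤ} (hv : v ≠ 0)
    (h : ∀ j : ℕ, ft μ (n + j * v) = ft μ n) : ft μ n = 0 := by
  have hNA : NullSingletonClass μ := ⟨hna⟩
  have h1 : ∀ L : ℕ, 0 < L → ∫ x, (fourier n x : ℂ) * Helper91.TTT.DD L (v • x) ∂μ = ft μ n := by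
    intro L hL
    have e1 : ∀ x : Tor, (fourier n x : ℂ) * Helper91.TTT.DD L (v • x) =
        (1 / (L : ℂ)) * ∑ j ∈ Finset.range L, (fourier (n + j * v) x : ℂ) := by
      intro x
      unfold Helper91.TTT.DD
      rw [mul_left_comm, Finset.mul_sum]
      congr 1
      refine Finset.sum_congr rfl (fun j _ => ?_)
      rw [Helper91.TTT.fourier_zsmul, fourier_add]
    simp only [e1]
    rw [integral_const_mul, integral_finsetSum _ (fun (j : ℕ) _ =>
      Helper91.TTT.integrable_cont μ (fourier (n + (j : ℤ) * v)).continuous)]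
    have e2 : ∀ j ∈ Finset.range L, ∫ x, (fourier (n + (j : ℤ) * v) x : ℂ) ∂μ = ft μ n :=
      fun j _ => h j
    rw [Finset.sum_congr rfl e2, Finset.sum_const, Finset.card_range, nsmul_eq_mul, ← mul_assoc,
      one_div, inv_mul_cancel₀ (by exact_mod_cast hL.ne'), one_mul]
  have h2 : Tendsto (fun L : ℕ => ∫ x, (fourier n x : ℂ) * Helper91.TTT.DD L (v • x) ∂μ) atTop
      (𝓝 (∫ x, (fourier n x : ℂ) * Set.indicator ({0} : Set Tor) (fun _ => (1 : ℂ)) (v • x) ∂μ)) := by
    refine tendsto_integral_of_dominated_convergence (fun _ => 1) ?_ (integrable_const _) ?_ ?_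
    · intro L
      exact ((fourier n).continuous.mul
        ((Helper91.TTT.continuous_DD L).comp (continuous_zsmul v))).aestronglyMeasurable
    · intro L
      refine Filter.Eventually.of_forall (fun x => ?_)
      rw [norm_mul, Helper91.TTT.norm_fourier_apply, one_mul]
      exact Helper91.TTT.DD_norm_le _ _
    · exact Filter.Eventually.of_forall (fun x => (Helper91.TTT.DD_tendsto (v • x)).const_mul _)
  have h3 : ∫ x, (fourier n x : ℂ) * Set.indicator ({0} : Set Tor) (fun _ => (1 : ℂ)) (v • x) ∂μ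
      = 0 := by
    have hfin : {x : Tor | v.natAbs • x = 0}.Finite :=
      AddCircle.finite_torsion 1 (Int.natAbs_pos.2 hv)
    have hz : μ {x : Tor | v.natAbs • x = 0} = 0 := hfin.measure_zero μ
    have hae : ∀ᵐ x ∂μ, x ∉ {x : Tor | v.natAbs • x = 0} := measure_eq_zero_iff_ae_notMem.1 hz
    rw [integral_congr_ae (g := fun _ => (0 : ℂ)) ?_, integral_zero]
    filter_upwards [hae] with x hx
    have hx' : v • x ≠ 0 := by
      intro h0
      apply hx
      show v.natAbs • x = 0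
      rcases Int.natAbs_eq v with h4 | h4
      · rw [← natCast_zsmul, ← h4]; exact h0
      · have h5 : (v.natAbs : ℤ) = -v := by omega
        rw [← natCast_zsmul, h5, neg_smul, h0, neg_zero]
    rw [Set.indicator_of_notMem (by simpa using hx'), mul_zero]
  rw [h3] at h2
  refine tendsto_nhds_unique (tendsto_const_nhds.congr' ?_) h2
  filter_upwards [eventually_gt_atTop 0] with L hL
  exact (h1 L hL).symm

/-- FX-23 -/
theorem chain [IsProbabilityMeasure μ] (h2 : MeasurePreserving (T 2) μ μ)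
    (h3 : MeasurePreserving (T 3) μ μ) (hna : ∀ x : Tor, μ {x} = 0) {m : ℕ} (hm : 1 ≤ m)
    (hc : ev μ m ∈ Hc (UU h2) (UU h3)) {W : Set (ℤ → ℂ)} (hW : IsOpen W) (hμW : ft μ ∈ W)
    (hiso : ∀ k : ℕ, dil (ft μ) ((k : ℤ) + 1) ∈ W → dil (ft μ) ((k : ℤ) + 1) = ft μ)
    (n : ℤ) (hn : n ≠ 0) : ft μ n = 0 := by
  classical
  -- a basic neighbourhood
  obtain ⟨I, w, hw1, hw2⟩ := isOpen_pi_iff.1 hW (ft μ) hμW
  have h1 : ∀ a : ℤ, ∃ ε : ℝ, 0 < ε ∧ (a ∈ I → Metric.ball (ft μ a) ε ⊆ w a) := by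
    intro a
    by_cases ha : a ∈ I
    · obtain ⟨ε, hε, hb⟩ := Metric.isOpen_iff.1 (hw1 a ha).1 _ (hw1 a ha).2
      exact ⟨ε, hε, fun _ => hb⟩
    · exact ⟨1, one_pos, fun h => absurd h ha⟩
  choose ε hε hball using h1
  have h4 : ∀ᶠ δ in 𝓝[>] (0 : ℝ), ∀ a ∈ I, |(a : ℝ)| * δ < ε a := by
    rw [Finset.eventually_all]
    intro a _
    have h5 : Tendsto (fun δ : ℝ => |(a : ℝ)| * δ) (𝓝 0) (𝓝 (|(a : ℝ)| * 0)) :=
      (continuous_const.mul continuous_id).tendsto 0
    rw [mul_zero] at h5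
    exact (h5.mono_left nhdsWithin_le_nhds).eventually (gt_mem_nhds (hε a))
  obtain ⟨δ, hδ, hδ0⟩ := (h4.and self_mem_nhdsWithin).exists
  have hδ0' : 0 < δ := hδ0
  -- a return time
  obtain ⟨d, hd, hlow⟩ := St.bohr (St.commute_UU h2 h3) hc hδ0'
  have h6 : ∃ s : ℕ × ℕ, s ≠ (0, 0) ∧ ‖act (UU h2) (UU h3) s (ev μ m) - ev μ m‖ ≤ δ := by
    by_contra hcon
    push Not at hcon
    have h7 : ∀ N : ℕ, cnt {s | ‖act (UU h2) (UU h3) s (ev μ m) - ev μ m‖ ≤ δ} N ≤ 1 := by
      intro N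
      unfold cnt
      have h8 : ((box N).filter (fun s => s ∈
          {s | ‖act (UU h2) (UU h3) s (ev μ m) - ev μ m‖ ≤ δ})).card ≤ 1 := by
        rw [Finset.card_le_one]
        intro a ha b hb
        rw [Finset.mem_filter] at ha hb
        have ha0 : a = (0, 0) := by
          by_contra h9
          exact absurd ha.2 (not_le.2 (hcon a h9))
        have hb0 : b = (0, 0) := by
          by_contra h9
          exact absurd hb.2 (not_le.2 (hcon b h9))
        rw [ha0, hb0]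
      exact_mod_cast h8
    have h9 : Tendsto (fun N : ℕ => d * (N : ℝ) ^ 2) atTop atTop := by
      apply Tendsto.const_mul_atTop hd
      exact (tendsto_pow_atTop (by norm_num)).comp tendsto_natCast_atTop_atTop
    obtain ⟨N, hN1, hN2⟩ := (hlow.and (h9.eventually_gt_atTop 1)).exists
    linarith [h7 N]
  obtain ⟨s, hs0, hs⟩ := h6
  have hsc : 2 ≤ sc s := by
    unfold sc
    obtain ⟨i, j⟩ := s
    simp only
    rcases Nat.eq_zero_or_pos i with hi | hi
    · rcases Nat.eq_zero_or_pos j with hj | hj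
      · exact absurd (by rw [hi, hj]) hs0
      · have h10 : (3 : ℤ) ^ 1 ≤ 3 ^ j := pow_le_pow_right₀ (by norm_num) hj
        have h11 : (1 : ℤ) ≤ 2 ^ i := one_le_pow₀ (by norm_num)
        nlinarith
    · have h10 : (2 : ℤ) ^ 1 ≤ 2 ^ i := pow_le_pow_right₀ (by norm_num) hi
      have h11 : (1 : ℤ) ≤ 3 ^ j := one_le_pow₀ (by norm_num)
      nlinarith
  set u : ℤ := sc s * m - m with hu
  have hmZ : (1 : ℤ) ≤ m := by exact_mod_cast hm
  have hu1 : 1 ≤ u := by
    rw [hu]; nlinarith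
  have hub : ‖ev μ u - ev μ 0‖ ≤ δ := by
    rw [St.act_ev] at hs
    have h12 : sc s * (m : ℤ) = m + u := by rw [hu]; ring
    rw [h12, norm_ev_add] at hs
    exact hs
  -- induction along the chain
  have hchain : ∀ j : ℕ, dil (ft μ) (1 + j * u) = ft μ := by
    intro j
    induction j with
    | zero =>
      funext a
      simp [dil]
    | succ j ih =>
      have hk : (((j + 1 : ℕ) * u).toNat : ℤ) = (j + 1 : ℕ) * u := Int.toNat_of_nonneg (by positivity)
      have hmem : dil (ft μ) (1 + (j + 1 : ℕ) * u) ∈ W := by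
        apply hw2
        intro a ha
        apply hball a ha
        rw [Metric.mem_ball, dist_eq_norm]
        have e1 : dil (ft μ) (1 + (j + 1 : ℕ) * u) a = ft μ ((1 + j * u) * a + a * u) := by
          unfold dil
          congr 1
          push_cast
          ring
        have e2 : ft μ a = ft μ ((1 + j * u) * a) := (congrFun ih a).symm
        rw [e1, e2]
        calc ‖ft μ ((1 + j * u) * a + a * u) - ft μ ((1 + j * u) * a)‖
            ≤ ‖ev μ (a * u) - ev μ 0‖ := ft_diff _ _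
          _ ≤ |(a : ℝ)| * ‖ev μ u - ev μ 0‖ := norm_ev_int _ _
          _ ≤ |(a : ℝ)| * δ := mul_le_mul_of_nonneg_left hub (abs_nonneg _)
          _ < ε a := hδ a ha
      have h13 := hiso ((j + 1 : ℕ) * u).toNat
      rw [hk, add_comm ((j + 1 : ℕ) * u) 1] at h13
      exact h13 hmem
  refine ft_zero hna (v := u * n) (mul_ne_zero (by omega) hn) ?_
  intro j
  have h14 := congrFun (hchain j) n
  rw [← h14]
  unfold dil
  congr 1
  ring

end Helper74.FX
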